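import Pool.Agent.H6.SR8

/-!
A Cohen-Macaulay finite simplicial complex (in particular a Cohen-Macaulay finite regular CW
complex, whose closed cells are the nonempty faces) such that for every linear system of
parameters the Artinian reduction of the Stanley-Reisner ring of its barycentric subdivision
fails the weak Lefschetz property.
-/

namespace Pool.Agent.Results.MP_28b0d6_al.FailsWLP

open Pool.Agent.H6.SRDefs

/-- There is a finite simplicial complex `Γ` such that, over every field `K`, the ring
`K[sd(Γ)]` is Cohen-Macaulay, and for every linear system of parameters `θ` of `K[sd(Γ)]` the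
algebra `S / (I_{sd(Γ)} + (θ))` fails the weak Lefschetz property. -/
theorem result : ∃ (V : Type) (_ : Finite V) (Γ : AbstractSimplicialComplex V),
    ∀ (K : Type) [Field K], IsCohenMacaulay K (sd Γ) ∧
      ∀ (d : ℕ) (θ : Fin d → MvPolynomial (Cell Γ) K),
        IsLsop K (sd Γ) θ → ¬ HasWLP (artIdeal K (sd Γ) θ) :=
  Pool.Agent.H6.SR.main

end Pool.Agent.Results.MP_28b0d6_al.FailsWLP
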